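import Mathlib
import Pool.Agent.Lib.MP_7eb8d7_co.Main76

/-!
# Steiner triple systems of order `p + 2` with vertex expansion `|V'| - 3`

The Schreiber - Wilson construction over `ZMod p` with two extra points, for the primes `p > 3`
such that `-2` has even multiplicative order modulo `p` (in particular for all primes congruent to
`5` or `7` modulo `8`), has property (E).
-/

namespace Pool.Agent.Results.MP_7eb8d7_co.PrimePlusTwo

/-- For every prime `p > 3` such that `-2` has even multiplicative order modulo `p`, and for every
prime `p` congruent to `5` or `7` modulo `8`, there is a Steiner triple system on `p + 2` points in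
which every set `V'` of at most half of the points has at least `|V'| - 3` neighbours. -/
theorem result (p : ℕ) (hp : p.Prime)
    (h : (3 < p ∧ Even (orderOf (-2 : ZMod p))) ∨ p % 8 = 5 ∨ p % 8 = 7) :
    ∃ S : Finset (Finset (Fin (p + 2))), STS7.IsSTS S ∧ STS7.PropE S := by
  have : Fact p.Prime := ⟨hp⟩
  rcases h with ⟨h3, h⟩ | h
  · exact STS7.main h3 h
  · have h3 : 3 < p := by
      have := hp.two_le
      omega
    exact STS7.main h3 (Pool.Agent.MP7eb8d7.even_order_of_mod8 p h)

end Pool.Agent.Results.MP_7eb8d7_co.PrimePlusTwo
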